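import Pool.Agent.Lib.TXD.OpD

/-!
# Conjugation and the inequality between the jets of `w` and those of `δ w`

`Φ n`, `n ≥ 0`, are bounded operators of `F`, overconvergent, with an inverse `Ψ`, and `𝒜` a set of
bounded operators of `F`, stable under conjugation by `Φ e`, `e ∈ k`. The elements `S i` are limits of
`F` at `0`, and finitely many operators of `𝒜` span all of them at the `S i`. Then the jets of `a w`,
`a ∈ 𝒜`, `w` in the span of the `S i`, are bounded by those of `w`, up to a shift of the order.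
-/

set_option autoImplicit false

open Finset

namespace Pool.Agent.TXD

open Pool.Agent.H15JM (RVal)
open Pool.Agent.D2 (Ctx0)

universe u

variable {k Ω : Type u} [Field k] [Field Ω] [Algebra k Ω] {v : RVal Ω} {F : Submodule k Ω}
  {E : Type*} [Ring E] [Algebra k E] {T : E →ₐ[k] Module.End k F} {ι : Type*}
  {h0 : Ctx0 k v} {w : Ω} {ρ : ℝ} {a b : E} {S : ι → Ω} {Φ Ψ : ℕ → E} {𝒜 : Set E}

/-- The coefficients of `Ψ a Φ`. -/
noncomputable def cj (Ψ Φ : ℕ → E) (a : E) (m : ℕ) : E :=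
  ∑ p ∈ antidiagonal m, Ψ p.1 * (a * Φ p.2)

theorem cj_bdd (h0 : Ctx0 k v) (hΦ : ∀ n, Bdd v T (Φ n)) (hΨ : ∀ n, Bdd v T (Ψ n))
    (ha : Bdd v T a) (m : ℕ) : Bdd v T (cj Ψ Φ a m) :=
  (BS h0 T).sum_mem fun p _ => (hΨ p.1).mul (ha.mul (hΦ p.2))

theorem cj_ov (hΨ : ∀ n, Bdd v T (Ψ n)) (ha : Bdd v T a) (hoΦ : Ov v T Φ) (hoΨ : Ov v T Ψ) :
    Ov v T (cj Ψ Φ a) := by
  intro f C
  obtain ⟨J, hJ⟩ := hoΦ f C
  choose L hL using fun j => hoΨ (T a (T (Φ j) f)) C
  refine ⟨J + ∑ j ∈ range J, L j, fun l hl => ?_⟩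
  rw [cj, map_sum, LinearMap.sum_apply, Submodule.coe_sum]
  refine RVal.Ge.sum _ _ fun p hp => ?_
  rw [HasAntidiagonal.mem_antidiagonal] at hp
  rw [map_mul, map_mul]
  by_cases h1 : J ≤ p.2
  · exact hΨ _ _ _ (ha _ _ (hJ _ h1))
  · push Not at h1
    refine hL p.2 _ ?_
    have : L p.2 ≤ ∑ j ∈ range J, L j :=
      single_le_sum (f := L) (fun i _ => Nat.zero_le _) (mem_range.2 h1)
    omega

theorem cj_zero (hΨ0 : Ψ 0 = 1) (hΦ0 : Φ 0 = 1) (a : E) : cj Ψ Φ a 0 = a := by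
  rw [cj, Finset.Nat.antidiagonal_zero, sum_singleton, hΨ0, hΦ0, mul_one, one_mul]

/-- `a'` is the conjugate of `a` by `Φ e`. -/
def Cjg (v : RVal Ω) (T : E →ₐ[k] Module.End k F) (Ψ Φ : ℕ → E) (e : k) (a a' : E) : Prop :=
  ∀ (f : F) (C : ℝ), ∃ L : ℕ, ∀ n, L ≤ n →
    v.Ge C ((T a' f : Ω) - (T (∑ m ∈ range n, e ^ m • cj Ψ Φ a m) f : Ω))

theorem cjg_KI (hS : ∀ i, L0 v F (S i)) (hΦ : ∀ n, Bdd v T (Φ n)) (hΨ : ∀ n, Bdd v T (Ψ n))
    (hoΦ : Ov v T Φ) (hoΨ : Ov v T Ψ) (ha : Bdd v T a) (I : Finset ι) (hρ : 0 < ρ) :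
    ∃ n₀ : ℕ, ∀ n, n₀ ≤ n → ∀ (e : k) (a' : E), Bdd v T a' → Cjg v T Ψ Φ e a a' →
      a' - ∑ m ∈ range n, e ^ m • cj Ψ Φ a m ∈ KI h0 T S I ρ := by
  classical
  choose θ hθ hθS using fun i => hS i ρ hρ
  choose L hL using fun i => cj_ov hΨ ha hoΦ hoΨ ⟨θ i, hθ i⟩ (-ρ)
  refine ⟨∑ i ∈ I, L i, fun n hn e a' ha' hc => ?_⟩
  have hb : Bdd v T (a' - ∑ m ∈ range n, e ^ m • cj Ψ Φ a m) :=
    (BS h0 T).sub_mem ha' ((BS h0 T).sum_mem fun m _ =>
      (cj_bdd h0 hΦ hΨ ha m).smul h0 _)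
  refine mem_KI.2 ⟨hb, fun i hi => mem_Kr_of hb fun ε hε => ⟨⟨θ i, hθ i⟩, ?_, ?_⟩⟩
  · exact (hθS i).mono (by linarith)
  have hLi : L i ≤ n := le_trans
    (single_le_sum (f := L) (fun i _ => Nat.zero_le _) hi) hn
  obtain ⟨L', hL'⟩ := hc ⟨θ i, hθ i⟩ (-ρ)
  set N := max n L' with hN
  have h1 := hL' N (le_max_right _ _)
  have e1 : ∑ m ∈ range N, e ^ m • cj Ψ Φ a m =
      ∑ m ∈ range n, e ^ m • cj Ψ Φ a m + ∑ m ∈ Ico n N, e ^ m • cj Ψ Φ a m :=
    (sum_range_add_sum_Ico _ (le_max_left _ _)).symm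
  have e2 : (T (a' - ∑ m ∈ range n, e ^ m • cj Ψ Φ a m) ⟨θ i, hθ i⟩ : Ω) =
      ((T a' ⟨θ i, hθ i⟩ : Ω) - (T (∑ m ∈ range N, e ^ m • cj Ψ Φ a m) ⟨θ i, hθ i⟩ : Ω)) +
        (T (∑ m ∈ Ico n N, e ^ m • cj Ψ Φ a m) ⟨θ i, hθ i⟩ : Ω) := by
    rw [e1, map_sub, map_add, LinearMap.sub_apply, LinearMap.add_apply, Submodule.coe_sub,
      Submodule.coe_add]
    ring
  rw [e2]
  refine (h1.add ?_).mono (by linarith)
  rw [map_sum, LinearMap.sum_apply, Submodule.coe_sum]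
  refine RVal.Ge.sum _ _ fun m hm => ?_
  rw [map_smul, LinearMap.smul_apply, Submodule.coe_smul]
  exact ge_smul h0 _ (hL i m (hLi.trans (mem_Ico.1 hm).1))

/-- **The conjugates are polynomial**: the coefficients of `Ψ a Φ` are in the span of `𝒜`, up to
operators which are `0` at the `S i`, and almost all of them are `0`. -/
theorem exists_coeff [Infinite k] (hS : ∀ i, L0 v F (S i)) (hΦ : ∀ n, Bdd v T (Φ n))
    (hΨ : ∀ n, Bdd v T (Ψ n)) (hoΦ : Ov v T Φ) (hoΨ : Ov v T Ψ) (h𝒜 : ∀ a ∈ 𝒜, Bdd v T a)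
    {U : Submodule k E} [FiniteDimensional k U]
    (hU : ∀ a ∈ 𝒜, ∃ u ∈ U, a - u ∈ K0 h0 T S)
    (hcj : ∀ a ∈ 𝒜, ∀ e : k, ∃ a' ∈ 𝒜, Cjg v T Ψ Φ e a a') (ha : a ∈ 𝒜) :
    ∃ (u : ℕ → E) (n₀ : ℕ), (∀ m, u m ∈ U) ∧ (∀ m, n₀ ≤ m → u m = 0) ∧
      ∀ m, cj Ψ Φ a m - u m ∈ K0 h0 T S := by
  classical
  obtain ⟨I₀, ρ₀, hρ₀, hsep⟩ := exists_sep (T := T) (h0 := h0) hS U
  choose a' ha' hc using hcj a ha
  choose r hr hra using fun e => hU (a' e) (ha' e)
  obtain ⟨n₀, hn₀⟩ := cjg_KI (h0 := h0) hS hΦ hΨ hoΦ hoΨ (h𝒜 a ha) I₀ hρ₀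
  have hn₁ : ∀ m, n₀ ≤ m → cj Ψ Φ a m ∈ KI h0 T S I₀ ρ₀ := fun m hm => by
    have h1 := hn₀ m hm 1 _ (h𝒜 _ (ha' 1)) (hc 1)
    have h2 := hn₀ (m + 1) (by omega) 1 _ (h𝒜 _ (ha' 1)) (hc 1)
    have h3 := (KI h0 T S I₀ ρ₀).sub_mem h1 h2
    rw [sum_range_succ, one_pow, one_smul] at h3
    rwa [show ∀ x y z : E, x - y - (x - (y + z)) = z from fun x y z => by abel] at h3
  -- the coefficients are in `U`, up to small elements
  have hv : ∀ m, ∃ u ∈ U, (n₀ ≤ m → u = 0) ∧ cj Ψ Φ a m - u ∈ KI h0 T S I₀ ρ₀ := fun m => by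
    by_cases hm : n₀ ≤ m
    · exact ⟨0, zero_mem _, fun _ => rfl, by rw [sub_zero]; exact hn₁ m hm⟩
    push Not at hm
    have h1 := vand (U ⊔ KI h0 T S I₀ ρ₀) (cj Ψ Φ a) n₀ (fun e => ?_) m hm
    · obtain ⟨u, hu, z, hz, h2⟩ := Submodule.mem_sup.1 h1
      exact ⟨u, hu, fun h => absurd h (by omega), by rw [← h2, add_sub_cancel_left]; exact hz⟩
    have h2 := hn₀ n₀ le_rfl e _ (h𝒜 _ (ha' e)) (hc e)
    have h3 : a' e - r e ∈ KI h0 T S I₀ ρ₀ := K0_le_KI hS hρ₀.le (hra e)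
    refine Submodule.mem_sup.2 ⟨r e, hr e, (a' e - r e) - (a' e - ∑ m ∈ range n₀, e ^ m •
      cj Ψ Φ a m), (KI h0 T S I₀ ρ₀).sub_mem h3 h2, by abel⟩
  choose u hu hu0 huK using hv
  refine ⟨u, n₀, hu, hu0, fun m => mem_K0_of fun I ρ hρ => ?_⟩
  -- the identity for the conjugates
  have hP : ∀ e, r e - ∑ m ∈ range n₀, e ^ m • u m ∈ K0 h0 T S := fun e => by
    refine hsep _ (U.sub_mem (hr e) (U.sum_mem fun m _ => U.smul_mem _ (hu m))) ?_
    have h2 := hn₀ n₀ le_rfl e _ (h𝒜 _ (ha' e)) (hc e)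
    have h3 : a' e - r e ∈ KI h0 T S I₀ ρ₀ := K0_le_KI hS hρ₀.le (hra e)
    have h4 : ∑ m ∈ range n₀, e ^ m • (cj Ψ Φ a m - u m) ∈ KI h0 T S I₀ ρ₀ :=
      (KI h0 T S I₀ ρ₀).sum_mem fun m _ => (KI h0 T S I₀ ρ₀).smul_mem _ (huK m)
    have e1 : r e - ∑ m ∈ range n₀, e ^ m • u m = -(a' e - r e) +
        (a' e - ∑ m ∈ range n₀, e ^ m • cj Ψ Φ a m) +
        ∑ m ∈ range n₀, e ^ m • (cj Ψ Φ a m - u m) := by
      simp only [smul_sub, sum_sub_distrib]
      abel
    rw [e1]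
    exact add_mem (add_mem (neg_mem h3) h2) h4
  obtain ⟨n₁, hn₁'⟩ := cjg_KI (h0 := h0) hS hΦ hΨ hoΦ hoΨ (h𝒜 a ha) I hρ
  set n := max (max n₀ n₁) (m + 1) with hn
  refine vand (KI h0 T S I ρ) (fun m => cj Ψ Φ a m - u m) n (fun e => ?_) m (by omega)
  have h1 := hn₁' n (by omega) e _ (h𝒜 _ (ha' e)) (hc e)
  have h2 : r e - ∑ m ∈ range n₀, e ^ m • u m ∈ KI h0 T S I ρ := K0_le_KI hS hρ.le (hP e)
  have h3 : a' e - r e ∈ KI h0 T S I ρ := K0_le_KI hS hρ.le (hra e)
  have e0 : ∑ m ∈ range n, e ^ m • u m = ∑ m ∈ range n₀, e ^ m • u m := by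
    refine (sum_subset (range_subset_range.2 (by omega)) fun i _ hi => ?_).symm
    rw [hu0 i (by simpa using hi), smul_zero]
  have e1 : ∑ m ∈ range n, e ^ m • (cj Ψ Φ a m - u m) = (r e - ∑ m ∈ range n₀, e ^ m • u m) +
      (a' e - r e) - (a' e - ∑ m ∈ range n, e ^ m • cj Ψ Φ a m) := by
    simp only [smul_sub, sum_sub_distrib]
    rw [e0]
    abel
  rw [e1]
  exact sub_mem (add_mem h2 h3) h1

/-! ### Power series of operators -/

/-- A polynomial as a power series of operators. -/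
noncomputable def pser (k E : Type*) [Field k] [Ring E] [Algebra k E] :
    Polynomial k →+* PowerSeries E :=
  (PowerSeries.map (algebraMap k E)).comp Polynomial.coeToPowerSeries.ringHom

theorem coeff_pser (P : Polynomial k) (n : ℕ) :
    PowerSeries.coeff n (pser k E P) = algebraMap k E (P.coeff n) := by
  simp [pser]

theorem coeff_mul_pser (Z : PowerSeries E) (P : Polynomial k) (n : ℕ) :
    PowerSeries.coeff n (Z * pser k E P) =
      ∑ p ∈ antidiagonal n, P.coeff p.2 • PowerSeries.coeff p.1 Z := by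
  rw [PowerSeries.coeff_mul]
  refine sum_congr rfl fun p _ => ?_
  rw [coeff_pser, Algebra.smul_def, Algebra.commutes]

theorem mul_pser_mem {K : Submodule k E} {Z : PowerSeries E} (hZ : ∀ n, PowerSeries.coeff n Z ∈ K)
    (P : Polynomial k) (n : ℕ) : PowerSeries.coeff n (Z * pser k E P) ∈ K := by
  rw [coeff_mul_pser]
  exact K.sum_mem fun p _ => K.smul_mem _ (hZ _)

theorem mk_mul_mem {Z : PowerSeries E} (hΦ : ∀ n, Bdd v T (Φ n))
    (hZ : ∀ n, PowerSeries.coeff n Z ∈ K0 h0 T S) (n : ℕ) :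
    PowerSeries.coeff n (PowerSeries.mk Φ * Z) ∈ K0 h0 T S := by
  rw [PowerSeries.coeff_mul]
  refine (K0 h0 T S).sum_mem fun p _ => ?_
  rw [PowerSeries.coeff_mk]
  exact mul_mem_K0 (hΦ _) (hZ _)

theorem mk_cj (a : E) :
    PowerSeries.mk (cj Ψ Φ a) = PowerSeries.mk Ψ * (PowerSeries.C a * PowerSeries.mk Φ) := by
  refine PowerSeries.ext fun n => ?_
  rw [PowerSeries.coeff_mk, PowerSeries.coeff_mul, cj]
  refine sum_congr rfl fun p _ => ?_
  rw [PowerSeries.coeff_C_mul, PowerSeries.coeff_mk, PowerSeries.coeff_mk]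

/-- **The inequality (D).** -/
theorem dineq [Infinite k] (hS : ∀ i, L0 v F (S i)) (hΦ : ∀ n, Bdd v T (Φ n))
    (hΨ : ∀ n, Bdd v T (Ψ n)) (hΦ0 : Φ 0 = 1) (hΨ0 : Ψ 0 = 1)
    (hinv : PowerSeries.mk Φ * PowerSeries.mk Ψ = 1) (hoΦ : Ov v T Φ) (hoΨ : Ov v T Ψ)
    (h𝒜 : ∀ a ∈ 𝒜, Bdd v T a) {N : ℕ} (A : Fin N → E) (hA : ∀ j, A j ∈ 𝒜)
    (hspan : ∀ a ∈ 𝒜, ∃ c : Fin N → k, a - ∑ j, c j • A j ∈ K0 h0 T S)
    (hcj : ∀ a ∈ 𝒜, ∀ e : k, ∃ a' ∈ 𝒜, Cjg v T Ψ Φ e a a') :
    ∃ D : ℕ, ∀ a ∈ 𝒜, ∀ w ∈ Submodule.span k (Set.range S), ∀ (x : ℕ) (ρ : ℝ), 0 ≤ ρ →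
      (∀ n, x ≤ n → Φ n ∈ Kr h0 T w ρ) → ∀ n, x + D ≤ n → Φ n * a ∈ Kr h0 T w ρ := by
  classical
  set U : Submodule k E := Submodule.span k (Set.range A) with hU
  have hUfd : FiniteDimensional k U := FiniteDimensional.span_of_finite k (Set.finite_range A)
  have hUs : ∀ a ∈ 𝒜, ∃ u ∈ U, a - u ∈ K0 h0 T S := fun a ha => by
    obtain ⟨c, hc⟩ := hspan a ha
    exact ⟨_, U.sum_mem fun j _ => U.smul_mem _ (Submodule.subset_span ⟨j, rfl⟩), hc⟩
  -- the matrix of the conjugation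
  have key : ∀ j, ∃ P : Fin N → Polynomial k, (∀ l, (P l).coeff 0 = if l = j then 1 else 0) ∧
      ∀ m, cj Ψ Φ (A j) m - ∑ l, (P l).coeff m • A l ∈ K0 h0 T S := fun j => by
    obtain ⟨u, n₀, hu, hu0, huK⟩ := exists_coeff hS hΦ hΨ hoΦ hoΨ h𝒜 hUs hcj (hA j)
    have h1 : ∀ m, ∃ c : Fin N → k, ∑ l, c l • A l = u m := fun m =>
      (Submodule.mem_span_range_iff_exists_fun k).1 (hu m)
    choose c hc using h1
    refine ⟨fun l => Polynomial.C (if l = j then 1 else 0) +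
      ∑ m ∈ Ico 1 (max 1 n₀), Polynomial.monomial m (c m l), fun l => ?_, fun m => ?_⟩
    · rw [Polynomial.coeff_add, Polynomial.coeff_C_zero, Polynomial.finsetSum_coeff,
        sum_eq_zero fun m hm => ?_, add_zero]
      rw [Polynomial.coeff_monomial, if_neg]
      have := (mem_Ico.1 hm).1
      omega
    · have e1 : ∀ l, (Polynomial.C (if l = j then (1 : k) else 0) +
          ∑ m ∈ Ico 1 (max 1 n₀), Polynomial.monomial m (c m l)).coeff m =
          if m = 0 then (if l = j then 1 else 0) else if m < n₀ then c m l else 0 := fun l => by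
        rw [Polynomial.coeff_add, Polynomial.coeff_C, Polynomial.finsetSum_coeff]
        simp only [Polynomial.coeff_monomial]
        rw [sum_ite_eq']
        by_cases h1 : m = 0
        · simp [h1]
        · rw [if_neg h1, if_neg h1, zero_add]
          by_cases h2 : m < n₀
          · rw [if_pos h2, if_pos (mem_Ico.2 ⟨by omega, by omega⟩)]
          · rw [if_neg h2, if_neg]
            rw [mem_Ico]
            omega
      simp only [e1]
      by_cases h1 : m = 0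
      · simp only [h1, if_true, cj_zero hΨ0 hΦ0]
        have : ∑ l, (if l = j then (1 : k) else 0) • A l = A j := by
          simp
        rw [this, sub_self]
        exact zero_mem _
      · simp only [if_neg h1]
        by_cases h2 : m < n₀
        · simp only [if_pos h2]
          rw [hc m]
          exact huK m
        · simp only [if_neg h2, zero_smul, sum_const_zero]
          have := huK m
          rwa [hu0 m (by omega)] at this
  choose B hB0 hB using key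
  set M : Matrix (Fin N) (Fin N) (Polynomial k) := Matrix.of B with hM
  set d := M.det with hd
  have hd0 : d ≠ 0 := by
    intro h
    have h1 : (Polynomial.constantCoeff : Polynomial k →+* k) d = 0 := by rw [h, map_zero]
    rw [hd, RingHom.map_det] at h1
    have h2 : (Polynomial.constantCoeff : Polynomial k →+* k).mapMatrix M = 1 := by
      ext j l
      rw [RingHom.mapMatrix_apply, Matrix.map_apply, hM, Matrix.of_apply,
        Polynomial.constantCoeff_apply, hB0, Matrix.one_apply]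
      by_cases h3 : j = l
      · rw [if_pos h3, if_pos h3.symm]
      · rw [if_neg h3, if_neg (Ne.symm h3)]
    rw [h2, Matrix.det_one] at h1
    exact one_ne_zero h1
  set C := M.adjugate with hC
  set φ := PowerSeries.mk Φ with hφ
  -- the relations
  have hR : ∀ j n, PowerSeries.coeff n (PowerSeries.C (A j) * φ -
      ∑ l, φ * PowerSeries.C (A l) * pser k E (B j l)) ∈ K0 h0 T S := fun j n => by
    have e1 : PowerSeries.C (A j) * φ - ∑ l, φ * PowerSeries.C (A l) * pser k E (B j l) =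
        φ * (PowerSeries.mk (cj Ψ Φ (A j)) - ∑ l, PowerSeries.C (A l) * pser k E (B j l)) := by
      rw [mk_cj, mul_sub, ← mul_assoc φ, hφ, hinv, one_mul, mul_sum]
      simp only [mul_assoc]
    rw [e1]
    refine mk_mul_mem hΦ (fun n => ?_) n
    rw [map_sub, PowerSeries.coeff_mk, map_sum]
    have e2 : ∑ l, PowerSeries.coeff n (PowerSeries.C (A l) * pser k E (B j l)) =
        ∑ l, (B j l).coeff n • A l := sum_congr rfl fun l _ => by
      rw [PowerSeries.coeff_C_mul, coeff_pser, Algebra.smul_def, Algebra.commutes]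
    rw [e2]
    exact hB j n
  have hR' : ∀ i n, PowerSeries.coeff n (∑ j, PowerSeries.C (A j) * φ * pser k E (C i j) -
      φ * PowerSeries.C (A i) * pser k E d) ∈ K0 h0 T S := fun i n => by
    have e1 : ∑ j, PowerSeries.C (A j) * φ * pser k E (C i j) -
        φ * PowerSeries.C (A i) * pser k E d =
        ∑ j, (PowerSeries.C (A j) * φ - ∑ l, φ * PowerSeries.C (A l) * pser k E (B j l)) *
          pser k E (C i j) := by
      simp only [sub_mul, sum_sub_distrib, sum_mul]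
      congr 1
      rw [sum_comm]
      have e3 : ∀ l, ∑ j, φ * PowerSeries.C (A l) * pser k E (B j l) * pser k E (C i j) =
          φ * PowerSeries.C (A l) * pser k E (if i = l then d else 0) := fun l => by
        simp only [mul_assoc]
        rw [← mul_sum, ← mul_sum]
        congr 2
        simp only [← map_mul]
        rw [← map_sum]
        congr 1
        have h := congrFun (congrFun (Matrix.adjugate_mul M) i) l
        rw [Matrix.mul_apply, Matrix.smul_apply, Matrix.one_apply, smul_eq_mul, mul_ite, mul_one,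
          mul_zero] at h
        rw [hd, ← h]
        exact sum_congr rfl fun j _ => mul_comm _ _
      rw [sum_congr rfl fun l _ => e3 l]
      rw [sum_eq_single i (fun l _ hl => by rw [if_neg (Ne.symm hl), map_zero, mul_zero])
        (fun h => absurd (mem_univ _) h), if_pos rfl]
    rw [e1, map_sum]
    exact (K0 h0 T S).sum_mem fun j _ => mul_pser_mem (hR j) _ n
  have hR2 : ∀ i n, ∑ j, ∑ p ∈ antidiagonal n, (C i j).coeff p.2 • (A j * Φ p.1) -
      ∑ p ∈ antidiagonal n, d.coeff p.2 • (Φ p.1 * A i) ∈ K0 h0 T S := fun i n => by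
    have h1 := hR' i n
    rw [map_sub, map_sum, coeff_mul_pser] at h1
    simp only [coeff_mul_pser, PowerSeries.coeff_C_mul, PowerSeries.coeff_mul_C, hφ,
      PowerSeries.coeff_mk] at h1
    exact h1
  -- the degree of the adjugate
  set D := ∑ i, ∑ j, (C i j).natDegree with hD
  have hCD : ∀ i j s, D < s → (C i j).coeff s = 0 := fun i j s hs => by
    refine Polynomial.coeff_eq_zero_of_natDegree_lt (lt_of_le_of_lt ?_ hs)
    exact le_trans (single_le_sum (f := fun j => (C i j).natDegree)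
      (fun _ _ => Nat.zero_le _) (mem_univ j))
      (single_le_sum (f := fun i => ∑ j, (C i j).natDegree) (fun _ _ => Nat.zero_le _)
        (mem_univ i))
  refine ⟨D, fun a ha w hw x ρ hρ hx n hn => ?_⟩
  -- the operators of the basis
  have hbas : ∀ i n, x + D ≤ n → Φ n * A i ∈ Kr h0 T w ρ := fun i n hn => by
    refine mem_Kr_of_pos fun ε hε => ?_
    have hwL : L0 v F w := (K0_le_Kr (T := T) (h0 := h0) hS hw hρ (zero_mem _)).1
    have hle : Kr h0 T w ρ ≤ Kr h0 T w (ρ + ε) := Kr_mono hwL hρ (by linarith)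
    obtain ⟨θ, hθ, hwθ⟩ := hwL ε hε
    obtain ⟨L, hL⟩ := hoΦ (T (A i) ⟨θ, hθ⟩) (-ε)
    have hbig : ∀ n, L ≤ n → Φ n * A i ∈ Kr h0 T w (ρ + ε) := fun n hn => by
      refine mem_Kr_of ((hΦ n).mul (h𝒜 _ (hA i))) fun ε' hε' => ⟨⟨θ, hθ⟩, ?_, ?_⟩
      · exact hwθ.mono (by linarith)
      · rw [map_mul]
        exact (hL n hn).mono (by linarith)
    -- descending induction
    have hdesc : ∀ t n, x + D ≤ n → L ≤ n + t → Φ n * A i ∈ Kr h0 T w (ρ + ε) := by
      intro t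
      induction t with
      | zero => exact fun n _ h => hbig n h
      | succ t ih =>
        intro n hn hLn
        have h1 := (K0_le_Kr (T := T) (h0 := h0) hS hw (by linarith : 0 ≤ ρ + ε)
          (hR2 i (n + d.natDegree))).2
        have h2 : ∑ j, ∑ p ∈ antidiagonal (n + d.natDegree), (C i j).coeff p.2 • (A j * Φ p.1) ∈
            Kr h0 T w (ρ + ε) := by
          refine (Kr h0 T w (ρ + ε)).sum_mem fun j _ => (Kr h0 T w (ρ + ε)).sum_mem fun p hp => ?_
          rw [HasAntidiagonal.mem_antidiagonal] at hp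
          by_cases h3 : D < p.2
          · rw [hCD i j _ h3, zero_smul]
            exact zero_mem _
          · exact (Kr h0 T w (ρ + ε)).smul_mem _ (hle (mul_mem_Kr (h𝒜 _ (hA j))
              (hx _ (by omega))))
        have h4 := (Kr h0 T w (ρ + ε)).sub_mem h2 h1
        rw [sub_sub_cancel] at h4
        have hmem : (n, d.natDegree) ∈ antidiagonal (n + d.natDegree) :=
          HasAntidiagonal.mem_antidiagonal.2 rfl
        rw [← add_sum_erase _ _ hmem] at h4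
        have h5 : ∑ p ∈ (antidiagonal (n + d.natDegree)).erase (n, d.natDegree),
            d.coeff p.2 • (Φ p.1 * A i) ∈ Kr h0 T w (ρ + ε) := by
          refine (Kr h0 T w (ρ + ε)).sum_mem fun p hp => ?_
          rw [mem_erase, HasAntidiagonal.mem_antidiagonal] at hp
          by_cases h6 : d.natDegree < p.2
          · rw [Polynomial.coeff_eq_zero_of_natDegree_lt h6, zero_smul]
            exact zero_mem _
          · have h7 : p.2 ≠ d.natDegree := fun h => hp.1 (Prod.ext (by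
              show p.1 = n
              omega) h)
            exact (Kr h0 T w (ρ + ε)).smul_mem _ (ih p.1 (by omega) (by omega))
        have h8 := (Kr h0 T w (ρ + ε)).sub_mem h4 h5
        rw [add_sub_cancel_right] at h8
        have h9 := (Kr h0 T w (ρ + ε)).smul_mem (d.coeff d.natDegree)⁻¹ h8
        rwa [smul_smul, inv_mul_cancel₀ (by
          rw [Polynomial.coeff_natDegree]
          exact Polynomial.leadingCoeff_ne_zero.2 hd0), one_smul] at h9
    exact hdesc L n hn (by omega)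
  obtain ⟨c, hc⟩ := hspan a ha
  have h1 : Φ n * (a - ∑ j, c j • A j) ∈ Kr h0 T w ρ :=
    (K0_le_Kr hS hw hρ (mul_mem_K0 (hΦ n) hc)).2
  have h2 : ∑ j, c j • (Φ n * A j) ∈ Kr h0 T w ρ :=
    (Kr h0 T w ρ).sum_mem fun j _ => (Kr h0 T w ρ).smul_mem _ (hbas j n hn)
  have e1 : Φ n * a = Φ n * (a - ∑ j, c j • A j) + ∑ j, c j • (Φ n * A j) := by
    rw [mul_sub, mul_sum]
    simp only [mul_smul_comm]
    abel
  rw [e1]
  exact add_mem h1 h2

end Pool.Agent.TXD
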