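import Pool.Agent.Lib.TXD.Dineq
import Pool.Agent.Lib.TXN.Shift

/-!
# The norms of the jets

`nj x w` is the maximum of the sizes of the jets of order at least `x` of the limit element `w`. These
norms satisfy the axioms of `TXN.SN`.
-/

set_option autoImplicit false

open Finset

namespace Pool.Agent.TXD

open Pool.Agent.H15JM (RVal)
open Pool.Agent.D2 (Ctx0)

universe u

variable {k Ω : Type u} [Field k] [Field Ω] [Algebra k Ω] {v : RVal Ω} {F : Submodule k Ω}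
  {E : Type*} [Ring E] [Algebra k E] {T : E →ₐ[k] Module.End k F}
  {h0 : Ctx0 k v} {w w' : Ω} {ρ : ℝ} {a : E} {Φ : ℕ → E}

/-- The bounds for the jets of order at least `x`. -/
def Bj (h0 : Ctx0 k v) (T : E →ₐ[k] Module.End k F) (Φ : ℕ → E) (x : ℕ) (w : Ω) : Set ℝ :=
  {ρ | 0 ≤ ρ ∧ ∀ n, x ≤ n → Φ n ∈ Kr h0 T w ρ}

/-- The norm of the jets of order at least `x`. -/
noncomputable def nj (h0 : Ctx0 k v) (T : E →ₐ[k] Module.End k F) (Φ : ℕ → E) (x : ℕ) (w : Ω) : ℝ :=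
  sInf (Bj h0 T Φ x w)

theorem Bj_bdd (x : ℕ) : BddBelow (Bj h0 T Φ x w) := ⟨0, fun _ h => h.1⟩

theorem Bj_up {x : ℕ} (hw : L0 v F w) {ρ ρ' : ℝ} (hρ : ρ ∈ Bj h0 T Φ x w) (h : ρ ≤ ρ') :
    ρ' ∈ Bj h0 T Φ x w :=
  ⟨hρ.1.trans h, fun n hn => Kr_mono hw hρ.1 h (hρ.2 n hn)⟩

theorem Bj_ne (hΦ : ∀ n, Bdd v T (Φ n)) (hw : L0 v F w) (x : ℕ) : (Bj h0 T Φ x w).Nonempty := by
  obtain ⟨θ, hθ, h1⟩ := hw 1 one_pos
  obtain ⟨C, hC0, hC⟩ : ∃ C : ℝ, 0 ≤ C ∧ v.Ge (-C) θ := by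
    by_cases h : θ = 0
    · exact ⟨0, le_rfl, by rw [h]; exact RVal.Ge.zero⟩
    · exact ⟨max 0 (-(v θ)), le_max_left _ _, fun _ => by
        have := le_max_right 0 (-(v θ))
        linarith⟩
  refine ⟨C + 1, by linarith, fun n _ => mem_Kr_of (hΦ n) fun ε hε => ⟨⟨θ, hθ⟩, ?_, ?_⟩⟩
  · exact h1.mono (by linarith)
  · exact (hΦ n ⟨θ, hθ⟩ (-C) hC).mono (by linarith)

theorem nj_le_iff (hΦ : ∀ n, Bdd v T (Φ n)) (hw : L0 v F w) {x : ℕ} (hρ : 0 ≤ ρ) :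
    nj h0 T Φ x w ≤ ρ ↔ ∀ n, x ≤ n → Φ n ∈ Kr h0 T w ρ := by
  constructor
  · intro h n hn
    refine mem_Kr_of_pos fun ε hε => ?_
    obtain ⟨ρ', hρ', h1⟩ := Real.lt_sInf_add_pos (Bj_ne (h0 := h0) hΦ hw x) hε
    exact (Bj_up hw hρ' (by
      unfold nj at h
      linarith)).2 n hn
  · exact fun h => csInf_le (Bj_bdd x) ⟨hρ, h⟩

theorem nj_nonneg (x : ℕ) : 0 ≤ nj h0 T Φ x w := Real.sInf_nonneg fun _ h => h.1

theorem nj_mem (hΦ : ∀ n, Bdd v T (Φ n)) (hw : L0 v F w) {x n : ℕ} (hn : x ≤ n) :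
    Φ n ∈ Kr h0 T w (nj h0 T Φ x w) :=
  (nj_le_iff hΦ hw (nj_nonneg x)).1 le_rfl n hn

theorem L0.add (hw : L0 v F w) (hw' : L0 v F w') : L0 v F (w + w') := fun ε hε => by
  obtain ⟨θ, hθ, h1⟩ := hw ε hε
  obtain ⟨θ', hθ', h2⟩ := hw' ε hε
  refine ⟨θ + θ', add_mem hθ hθ', ?_⟩
  rw [show w + w' - (θ + θ') = (w - θ) + (w' - θ') by ring]
  exact h1.add h2

theorem L0.smul (h0 : Ctx0 k v) (hw : L0 v F w) (c : k) : L0 v F (c • w) := fun ε hε => by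
  obtain ⟨θ, hθ, h1⟩ := hw ε hε
  refine ⟨c • θ, F.smul_mem c hθ, ?_⟩
  rw [← smul_sub]
  exact ge_smul h0 c h1

theorem L0.zero : L0 v F (0 : Ω) := fun ε _ => ⟨0, zero_mem _, by
  rw [sub_zero]
  exact RVal.Ge.zero⟩

theorem nj_add (hΦ : ∀ n, Bdd v T (Φ n)) (hw : L0 v F w) (hw' : L0 v F w') (x : ℕ) :
    nj h0 T Φ x (w + w') ≤ max (nj h0 T Φ x w) (nj h0 T Φ x w') := by
  have hm : 0 ≤ max (nj h0 T Φ x w) (nj h0 T Φ x w') := le_max_of_le_left (nj_nonneg x)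
  refine (nj_le_iff hΦ (hw.add hw') hm).2 fun n hn => Kr_add hw hm ?_ ?_
  · exact (nj_le_iff hΦ hw hm).1 (le_max_left _ _) n hn
  · exact (nj_le_iff hΦ hw' hm).1 (le_max_right _ _) n hn

theorem nj_smul (hΦ : ∀ n, Bdd v T (Φ n)) (hw : L0 v F w) (c : k) (x : ℕ) :
    nj h0 T Φ x (c • w) ≤ nj h0 T Φ x w :=
  (nj_le_iff hΦ (hw.smul h0 c) (nj_nonneg x)).2 fun _ hn =>
    Kr_smul hw (nj_nonneg x) c (nj_mem hΦ hw hn)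

theorem nj_anti (hΦ : ∀ n, Bdd v T (Φ n)) (hw : L0 v F w) {x y : ℕ} (h : x ≤ y) :
    nj h0 T Φ y w ≤ nj h0 T Φ x w :=
  (nj_le_iff hΦ hw (nj_nonneg x)).2 fun _ hn => nj_mem hΦ hw (h.trans hn)

/-! ### Frobenius -/

variable {p : ℕ}

/-- The operators `Φ` commute with Frobenius. -/
structure Fro (p : ℕ) (T : E →ₐ[k] Module.End k F) (Φ : ℕ → E) : Prop where
  pow : ∀ f ∈ F, f ^ p ∈ F
  mul : ∀ (n : ℕ) (f : F) (hf : (f : Ω) ^ p ∈ F), (T (Φ (p * n)) ⟨(f : Ω) ^ p, hf⟩ : Ω) =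
    (T (Φ n) f : Ω) ^ p
  nd : ∀ (n : ℕ) (f : F) (hf : (f : Ω) ^ p ∈ F), ¬ p ∣ n → T (Φ n) ⟨(f : Ω) ^ p, hf⟩ = 0

theorem ge_pow' (hp0 : 0 < p) {b : ℝ} {x : Ω} : v.Ge (p * b) (x ^ p) ↔ v.Ge b x := by
  constructor
  · intro h hx
    have h1 := h (pow_ne_zero p hx)
    rw [v.map_pow hx] at h1
    have h2 : (0 : ℝ) < p := by exact_mod_cast hp0
    exact le_of_mul_le_mul_left h1 h2
  · intro h hx
    have hx0 : x ≠ 0 := fun h1 => hx (by rw [h1, zero_pow hp0.ne'])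
    rw [v.map_pow hx0]
    exact mul_le_mul_of_nonneg_left (h hx0) (Nat.cast_nonneg p)

variable [hp : Fact p.Prime] [CharP Ω p]

theorem L0.pow (hfr : Fro p T Φ) (hw : L0 v F w) : L0 v F (w ^ p) := fun ε hε => by
  have hp0 : (0 : ℝ) < p := by exact_mod_cast hp.out.pos
  obtain ⟨θ, hθ, h1⟩ := hw (ε / p) (by positivity)
  refine ⟨θ ^ p, hfr.pow θ hθ, ?_⟩
  rw [← sub_pow_char, show -ε = p * -(ε / p) by field_simp]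
  exact (ge_pow' hp.out.pos).2 h1

theorem Kr_pow (hΦ : ∀ n, Bdd v T (Φ n)) (hfr : Fro p T Φ) (hw : L0 v F w) (hρ : 0 ≤ ρ) (n : ℕ) :
    Φ (p * n) ∈ Kr h0 T (w ^ p) (p * ρ) ↔ Φ n ∈ Kr h0 T w ρ := by
  have hp0 : (0 : ℝ) < p := by exact_mod_cast hp.out.pos
  constructor
  · intro h
    refine mem_Kr_of (hΦ n) fun ε hε => ?_
    obtain ⟨θ, hθ, h1⟩ := hw ε hε
    refine ⟨⟨θ, hθ⟩, h1.mono (by linarith), ?_⟩
    have h2 := h.2 (p * ε) (by positivity) ⟨θ ^ p, hfr.pow θ hθ⟩ (by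
      show v.Ge _ (w ^ p - θ ^ p)
      rw [← sub_pow_char]
      refine RVal.Ge.mono ?_ ((ge_pow' hp.out.pos).2 h1)
      nlinarith)
    rw [hfr.mul n ⟨θ, hθ⟩] at h2
    rw [show -(p * ρ + p * ε) = p * -(ρ + ε) by ring] at h2
    exact (ge_pow' hp.out.pos).1 h2
  · intro h
    refine mem_Kr_of (hΦ _) fun ε hε => ?_
    have hε' : 0 < ε / p := by positivity
    obtain ⟨θ, hθ, h1⟩ := hw (ε / p) hε'
    refine ⟨⟨θ ^ p, hfr.pow θ hθ⟩, ?_, ?_⟩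
    · show v.Ge _ (w ^ p - θ ^ p)
      rw [← sub_pow_char]
      refine RVal.Ge.mono ?_ ((ge_pow' hp.out.pos).2 h1)
      rw [show (p : ℝ) * -(ε / p) = -ε by field_simp]
      nlinarith
    · rw [hfr.mul n ⟨θ, hθ⟩]
      have h2 := h.2 (ε / p) hε' ⟨θ, hθ⟩ (h1.mono (by linarith))
      refine RVal.Ge.mono ?_ ((ge_pow' hp.out.pos).2 h2)
      rw [show (p : ℝ) * -(ρ + ε / p) = -(p * ρ + ε) by field_simp]

theorem Kr_nd (hΦ : ∀ n, Bdd v T (Φ n)) (hfr : Fro p T Φ) (hw : L0 v F w) (hρ : 0 ≤ ρ) {n : ℕ}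
    (hn : ¬ p ∣ n) : Φ n ∈ Kr h0 T (w ^ p) ρ := by
  have hp0 : (0 : ℝ) < p := by exact_mod_cast hp.out.pos
  refine mem_Kr_of (hΦ n) fun ε hε => ?_
  obtain ⟨θ, hθ, h1⟩ := hw (ε / p) (by positivity)
  refine ⟨⟨θ ^ p, hfr.pow θ hθ⟩, ?_, ?_⟩
  · show v.Ge _ (w ^ p - θ ^ p)
    rw [← sub_pow_char]
    refine RVal.Ge.mono ?_ ((ge_pow' hp.out.pos).2 h1)
    rw [show (p : ℝ) * -(ε / p) = -ε by field_simp]
    linarith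
  · rw [hfr.nd n ⟨θ, hθ⟩ _ hn, Submodule.coe_zero]
    exact RVal.Ge.zero

/-- The norm of `w ^ p`. -/
theorem nj_pow (hΦ : ∀ n, Bdd v T (Φ n)) (hfr : Fro p T Φ) (hw : L0 v F w) (x : ℕ) :
    nj h0 T Φ x (w ^ p) = p * nj h0 T Φ (TXN.cx p x) w := by
  have hp0 : (0 : ℝ) < p := by exact_mod_cast hp.out.pos
  have key : ∀ ρ : ℝ, 0 ≤ ρ → (nj h0 T Φ x (w ^ p) ≤ p * ρ ↔ nj h0 T Φ (TXN.cx p x) w ≤ ρ) := by
    intro ρ hρ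
    rw [nj_le_iff hΦ (hw.pow hfr) (by positivity), nj_le_iff hΦ hw hρ]
    constructor
    · intro h n hn
      refine (Kr_pow hΦ hfr hw hρ n).1 (h _ ?_)
      have h1 : x ≤ p * TXN.cx p x := by
        unfold TXN.cx
        have h2 := Nat.div_add_mod (x + (p - 1)) p
        have h3 := Nat.mod_lt (x + (p - 1)) hp.out.pos
        omega
      exact h1.trans (Nat.mul_le_mul_left p hn)
    · intro h n hn
      by_cases hd : p ∣ n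
      · obtain ⟨m, rfl⟩ := hd
        refine (Kr_pow hΦ hfr hw hρ m).2 (h m ?_)
        rw [← TXN.cx_mul hp.out.pos m]
        exact TXN.cx_mono p hn
      · exact Kr_nd hΦ hfr hw (by positivity) hd
  refine le_antisymm ((key _ (nj_nonneg _)).2 le_rfl) ?_
  have h1 := (key (nj h0 T Φ x (w ^ p) / p) (div_nonneg (nj_nonneg _) hp0.le)).1
    (by rw [mul_div_cancel₀ _ hp0.ne'])
  rwa [le_div_iff₀ hp0, mul_comm] at h1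

omit hp [CharP Ω p] in
/-- The jets of `w' = a w - f`. -/
theorem nj_of_lift (hΦ : ∀ n, Bdd v T (Φ n)) (hw' : L0 v F w') {f : F} {n₁ : ℕ}
    (hf : ∀ n, n₁ ≤ n → v.Ge 0 (T (Φ n) f : Ω))
    (hl : ∀ ε : ℝ, 0 < ε → ∃ θ : F, v.Ge (-ε) (w - θ) ∧ v.Ge (-ε) (w' - ((T a θ : Ω) - f)))
    {x : ℕ} (hx : n₁ ≤ x) (hρ : 0 ≤ ρ) (h : ∀ n, x ≤ n → Φ n * a ∈ Kr h0 T w ρ) :
    nj h0 T Φ x w' ≤ ρ := by
  refine (nj_le_iff hΦ hw' hρ).2 fun n hn => mem_Kr_of (hΦ n) fun ε hε => ?_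
  obtain ⟨θ, h1, h2⟩ := hl ε hε
  refine ⟨T a θ - f, ?_, ?_⟩
  · rw [Submodule.coe_sub]
    exact h2.mono (by linarith)
  · rw [map_sub, Submodule.coe_sub]
    have h3 := (h n hn).2 ε hε θ (h1.mono (by linarith))
    rw [map_mul] at h3
    exact RVal.Ge.sub h3 ((hf n (hx.trans hn)).mono (by linarith))

/-! ### The norms on a module of limit elements -/

section mod

variable [CharP k p] {Λ : Type*} [AddCommGroup Λ] [Module k Λ] {Fr : Λ →ₛₗ[frobenius k p] Λ}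
  {ℓ : Λ →ₗ[k] Ω}

/-- **The axioms of the norms.** -/
theorem sn_nj (hΦ : ∀ n, Bdd v T (Φ n)) (hfr : Fro p T Φ) (hℓ : ∀ w, L0 v F (ℓ w))
    (hF : ∀ w, ℓ (Fr w) = ℓ w ^ p) (hpos : ∀ x w, nj h0 T Φ x (ℓ w) = 0 → w = 0) :
    TXN.SN p Fr fun x w => nj h0 T Φ x (ℓ w) where
  nonneg _ _ := nj_nonneg _
  anti _ _ w h := nj_anti hΦ (hℓ w) h
  add x w w' := by
    rw [map_add]
    exact nj_add hΦ (hℓ w) (hℓ w') x
  smul x c w := by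
    rw [map_smul]
    exact nj_smul hΦ (hℓ w) c x
  frob x w := by
    rw [hF]
    exact nj_pow hΦ hfr (hℓ w) x
  pos := hpos

omit hp [CharP Ω p] [CharP k p] in
/-- **The inequality for the operators of the module.** -/
theorem nj_op [Infinite k] {ι : Type*} {S : ι → Ω} {Ψ : ℕ → E} {𝒜 : Set E}
    (hS : ∀ i, L0 v F (S i)) (hΦ : ∀ n, Bdd v T (Φ n))
    (hΨ : ∀ n, Bdd v T (Ψ n)) (hΦ0 : Φ 0 = 1) (hΨ0 : Ψ 0 = 1)
    (hinv : PowerSeries.mk Φ * PowerSeries.mk Ψ = 1) (hoΦ : Ov v T Φ) (hoΨ : Ov v T Ψ)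
    (h𝒜 : ∀ a ∈ 𝒜, Bdd v T a) {N : ℕ} (A : Fin N → E) (hA : ∀ j, A j ∈ 𝒜)
    (hspan : ∀ a ∈ 𝒜, ∃ c : Fin N → k, a - ∑ j, c j • A j ∈ K0 h0 T S)
    (hcj : ∀ a ∈ 𝒜, ∀ e : k, ∃ a' ∈ 𝒜, Cjg v T Ψ Φ e a a')
    (hℓ : ∀ w : Λ, ℓ w ∈ Submodule.span k (Set.range S)) {D : Set (Λ →ₗ[k] Λ)} {n₁ : ℕ}
    (hD : ∀ δ ∈ D, ∃ a ∈ 𝒜, ∀ w, ∃ f : F, (∀ n, n₁ ≤ n → v.Ge 0 (T (Φ n) f : Ω)) ∧
      ∀ ε : ℝ, 0 < ε → ∃ θ : F, v.Ge (-ε) (ℓ w - θ) ∧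
        v.Ge (-ε) (ℓ (δ w) - ((T a θ : Ω) - f))) :
    ∃ A' : ℕ, ∀ δ ∈ D, ∀ x, n₁ ≤ x → ∀ w,
      nj h0 T Φ (x + A') (ℓ (δ w)) ≤ nj h0 T Φ x (ℓ w) := by
  obtain ⟨A', hA'⟩ := dineq hS hΦ hΨ hΦ0 hΨ0 hinv hoΦ hoΨ h𝒜 A hA hspan hcj
  refine ⟨A', fun δ hδ x hx w => ?_⟩
  obtain ⟨a, ha, hw⟩ := hD δ hδ
  obtain ⟨f, hf, hl⟩ := hw w
  have hL : ∀ w : Λ, L0 v F (ℓ w) := fun w =>
    (K0_le_Kr (T := T) (h0 := h0) hS (hℓ w) le_rfl (zero_mem _)).1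
  refine nj_of_lift hΦ (hL _) hf hl (by omega) (nj_nonneg x) ?_
  exact hA' a ha _ (hℓ w) x _ (nj_nonneg x) fun n hn => nj_mem hΦ (hL w) hn

end mod

end Pool.Agent.TXD
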