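import Pool.Agent.Lib.D2.Ctx0
import Mathlib.RingTheory.PowerSeries.Basic
import Mathlib.LinearAlgebra.Matrix.Adjugate
import Mathlib.LinearAlgebra.FiniteDimensional.Lemmas
import Mathlib.LinearAlgebra.Dual.Lemmas

/-!
# Operators of a `k`-space and their values at limit elements

`F` is a `k`-subspace of `Ω`, `E` an algebra of operators of `F`. `Kr` is the space of the bounded
operators of size at most `ρ` at a limit element `w` of `F`.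
-/

set_option autoImplicit false

open Finset

namespace Pool.Agent.TXD

open Pool.Agent.H15JM (RVal)
open Pool.Agent.D2 (Ctx0)

universe u

variable {k Ω : Type u} [Field k] [Field Ω] [Algebra k Ω] {v : RVal Ω} {F : Submodule k Ω}
  {E : Type*} [Ring E] [Algebra k E] {T : E →ₐ[k] Module.End k F} {ι : Type*}

/-- `w` is a limit of `F` at `0`. -/
def L0 (v : RVal Ω) (F : Submodule k Ω) (w : Ω) : Prop :=
  ∀ ε : ℝ, 0 < ε → ∃ θ ∈ F, v.Ge (-ε) (w - θ)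

/-- Bounded operators. -/
def Bdd (v : RVal Ω) (T : E →ₐ[k] Module.End k F) (a : E) : Prop :=
  ∀ (f : F) (b : ℝ), v.Ge b (f : Ω) → v.Ge b (T a f : Ω)

/-- The size of `a w` is at most `ρ`. -/
def Gp (v : RVal Ω) (T : E →ₐ[k] Module.End k F) (a : E) (w : Ω) (ρ : ℝ) : Prop :=
  ∀ ε : ℝ, 0 < ε → ∀ θ : F, v.Ge (-(ρ + ε)) (w - θ) → v.Ge (-(ρ + ε)) (T a θ : Ω)

/-- Overconvergence. -/
def Ov (v : RVal Ω) (T : E →ₐ[k] Module.End k F) (Φ : ℕ → E) : Prop :=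
  ∀ (f : F) (C : ℝ), ∃ L : ℕ, ∀ l, L ≤ l → v.Ge C (T (Φ l) f : Ω)

theorem ge_smul (h0 : Ctx0 k v) (c : k) {b : ℝ} {x : Ω} (hx : v.Ge b x) : v.Ge b (c • x) := by
  rw [Algebra.smul_def]
  have := (h0.ge c).mul hx
  rwa [zero_add] at this

namespace Bdd

theorem zero : Bdd v T 0 := fun f b _ => by
  rw [map_zero, LinearMap.zero_apply, Submodule.coe_zero]
  exact RVal.Ge.zero

theorem one : Bdd v T 1 := fun f b h => by
  rw [map_one]
  exact h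

theorem add {a b : E} (ha : Bdd v T a) (hb : Bdd v T b) : Bdd v T (a + b) :=
  fun f c h => by
    rw [map_add, LinearMap.add_apply, Submodule.coe_add]
    exact (ha f c h).add (hb f c h)

theorem smul (h0 : Ctx0 k v) (c : k) {a : E} (ha : Bdd v T a) : Bdd v T (c • a) :=
  fun f b h => by
    rw [map_smul, LinearMap.smul_apply, Submodule.coe_smul]
    exact ge_smul h0 c (ha f b h)

theorem mul {a b : E} (ha : Bdd v T a) (hb : Bdd v T b) : Bdd v T (a * b) :=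
  fun f c h => by
    rw [map_mul]
    exact ha _ c (hb f c h)

end Bdd

/-- The bounded operators. -/
def BS (h0 : Ctx0 k v) (T : E →ₐ[k] Module.End k F) : Submodule k E where
  carrier := {a | Bdd v T a}
  zero_mem' := Bdd.zero
  add_mem' := Bdd.add
  smul_mem' c _ ha := Bdd.smul h0 c ha

/-- The bounded operators whose value at `w` is of size at most `ρ`. -/
def Kr (h0 : Ctx0 k v) (T : E →ₐ[k] Module.End k F) (w : Ω) (ρ : ℝ) : Submodule k E where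
  carrier := {a | Bdd v T a ∧ Gp v T a w ρ}
  zero_mem' := ⟨Bdd.zero, fun ε _ θ _ => by
    rw [map_zero, LinearMap.zero_apply, Submodule.coe_zero]
    exact RVal.Ge.zero⟩
  add_mem' ha hb := ⟨ha.1.add hb.1, fun ε hε θ h => by
    rw [map_add, LinearMap.add_apply, Submodule.coe_add]
    exact (ha.2 ε hε θ h).add (hb.2 ε hε θ h)⟩
  smul_mem' c a ha := ⟨ha.1.smul h0 c, fun ε hε θ h => by
    rw [map_smul, LinearMap.smul_apply, Submodule.coe_smul]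
    exact ge_smul h0 c (ha.2 ε hε θ h)⟩

variable {h0 : Ctx0 k v} {w w' : Ω} {ρ ρ' : ℝ} {a b : E}

theorem mem_BS : a ∈ BS h0 T ↔ Bdd v T a := Iff.rfl

theorem mem_Kr : a ∈ Kr h0 T w ρ ↔ Bdd v T a ∧ Gp v T a w ρ := Iff.rfl

theorem mem_Kr_of (ha : Bdd v T a)
    (h : ∀ ε : ℝ, 0 < ε → ∃ θ : F, v.Ge (-(ρ + ε)) (w - θ) ∧ v.Ge (-(ρ + ε)) (T a θ : Ω)) :
    a ∈ Kr h0 T w ρ := by
  refine ⟨ha, fun ε hε θ hθ => ?_⟩
  obtain ⟨θ', h1, h2⟩ := h ε hε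
  have e1 : (T a θ : Ω) = (T a (θ - θ') : Ω) + (T a θ' : Ω) := by
    rw [map_sub, Submodule.coe_sub]
    ring
  rw [e1]
  refine (ha _ _ ?_).add h2
  have e2 : ((θ - θ' : F) : Ω) = (w - θ') - (w - θ) := by
    rw [Submodule.coe_sub]
    ring
  rw [e2]
  exact h1.sub hθ

theorem Kr_mono (hw : L0 v F w) (hρ : 0 ≤ ρ) (h : ρ ≤ ρ') : Kr h0 T w ρ ≤ Kr h0 T w ρ' := by
  intro a ha
  refine mem_Kr_of ha.1 fun ε hε => ?_
  obtain ⟨θ, hθ, h1⟩ := hw ε hε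
  refine ⟨⟨θ, hθ⟩, h1.mono (by linarith), ?_⟩
  exact (ha.2 ε hε ⟨θ, hθ⟩ (h1.mono (by linarith))).mono (by linarith)

theorem mem_Kr_of_pos (ha : ∀ ε : ℝ, 0 < ε → a ∈ Kr h0 T w (ρ + ε)) : a ∈ Kr h0 T w ρ := by
  refine ⟨(ha 1 one_pos).1, fun ε hε θ hθ => ?_⟩
  have h := (ha (ε / 2) (half_pos hε)).2 (ε / 2) (half_pos hε) θ
  rw [show -(ρ + ε / 2 + ε / 2) = -(ρ + ε) by ring] at h
  exact h hθ

theorem mul_mem_Kr (hb : Bdd v T b) (ha : a ∈ Kr h0 T w ρ) : b * a ∈ Kr h0 T w ρ :=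
  ⟨hb.mul ha.1, fun ε hε θ hθ => by
    rw [map_mul]
    exact hb _ _ (ha.2 ε hε θ hθ)⟩

theorem Kr_add (hw : L0 v F w) (hρ : 0 ≤ ρ) (ha : a ∈ Kr h0 T w ρ) (ha' : a ∈ Kr h0 T w' ρ) :
    a ∈ Kr h0 T (w + w') ρ := by
  refine ⟨ha.1, fun ε hε θ hθ => ?_⟩
  obtain ⟨θ₁, hθ₁, h1⟩ := hw ε hε
  have h1' : v.Ge (-(ρ + ε)) (w - θ₁) := h1.mono (by linarith)
  have e1 : (T a θ : Ω) = (T a ⟨θ₁, hθ₁⟩ : Ω) + (T a (θ - ⟨θ₁, hθ₁⟩) : Ω) := by
    rw [map_sub, Submodule.coe_sub]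
    ring
  rw [e1]
  refine (ha.2 ε hε _ h1').add (ha'.2 ε hε _ ?_)
  have e2 : w' - ((θ - ⟨θ₁, hθ₁⟩ : F) : Ω) = (w + w' - θ) - (w - θ₁) := by
    rw [Submodule.coe_sub]
    ring
  rw [e2]
  exact hθ.sub h1'

theorem Kr_smul (hw : L0 v F w) (hρ : 0 ≤ ρ) (c : k) (ha : a ∈ Kr h0 T w ρ) :
    a ∈ Kr h0 T (c • w) ρ := by
  refine ⟨ha.1, fun ε hε θ hθ => ?_⟩
  obtain ⟨θ₁, hθ₁, h1⟩ := hw ε hε
  have h1' : v.Ge (-(ρ + ε)) (w - θ₁) := h1.mono (by linarith)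
  have e1 : (T a θ : Ω) = (c • (T a ⟨θ₁, hθ₁⟩ : F) : F) + (T a (θ - c • ⟨θ₁, hθ₁⟩) : Ω) := by
    rw [map_sub, Submodule.coe_sub, map_smul]
    ring
  rw [e1, Submodule.coe_smul]
  refine (ge_smul h0 c (ha.2 ε hε _ h1')).add (ha.1 _ _ ?_)
  have e2 : ((θ - c • ⟨θ₁, hθ₁⟩ : F) : Ω) = c • (w - θ₁) - (c • w - θ) := by
    rw [Submodule.coe_sub, Submodule.coe_smul, smul_sub]
    ring
  rw [e2]
  exact (ge_smul h0 c h1').sub hθ

/-- The operators which are `0` at all the `S i`. -/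
def K0 (h0 : Ctx0 k v) (T : E →ₐ[k] Module.End k F) (S : ι → Ω) : Submodule k E :=
  BS h0 T ⊓ ⨅ i, Kr h0 T (S i) 0

/-- The operators of size at most `ρ` at the `S i`, `i ∈ I`. -/
def KI (h0 : Ctx0 k v) (T : E →ₐ[k] Module.End k F) (S : ι → Ω) (I : Finset ι) (ρ : ℝ) :
    Submodule k E :=
  BS h0 T ⊓ ⨅ i ∈ I, Kr h0 T (S i) ρ

variable {S : ι → Ω} {I I' : Finset ι}

theorem mem_K0 : a ∈ K0 h0 T S ↔ Bdd v T a ∧ ∀ i, a ∈ Kr h0 T (S i) 0 := by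
  rw [K0, Submodule.mem_inf, Submodule.mem_iInf]
  rfl

theorem mem_KI : a ∈ KI h0 T S I ρ ↔ Bdd v T a ∧ ∀ i ∈ I, a ∈ Kr h0 T (S i) ρ := by
  rw [KI, Submodule.mem_inf]
  simp only [Submodule.mem_iInf]
  rfl

theorem K0_le_KI (hS : ∀ i, L0 v F (S i)) (hρ : 0 ≤ ρ) : K0 h0 T S ≤ KI h0 T S I ρ := fun a ha => by
  rw [mem_K0] at ha
  exact mem_KI.2 ⟨ha.1, fun i _ => Kr_mono (hS i) le_rfl hρ (ha.2 i)⟩

theorem KI_mono (hS : ∀ i, L0 v F (S i)) (hI : I ⊆ I') (hρ : 0 ≤ ρ) (h : ρ ≤ ρ') :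
    KI h0 T S I' ρ ≤ KI h0 T S I ρ' := fun a ha => by
  rw [mem_KI] at ha ⊢
  exact ⟨ha.1, fun i hi => Kr_mono (hS i) hρ h (ha.2 i (hI hi))⟩

theorem mem_K0_of (h : ∀ (I : Finset ι) (ρ : ℝ), 0 < ρ → a ∈ KI h0 T S I ρ) : a ∈ K0 h0 T S := by
  rw [mem_K0]
  refine ⟨(mem_KI.1 (h ∅ 1 one_pos)).1, fun i => mem_Kr_of_pos fun ε hε => ?_⟩
  rw [zero_add]
  exact (mem_KI.1 (h {i} ε hε)).2 i (mem_singleton_self i)

theorem mul_mem_K0 (hb : Bdd v T b) (ha : a ∈ K0 h0 T S) : b * a ∈ K0 h0 T S := by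
  rw [mem_K0] at ha ⊢
  exact ⟨hb.mul ha.1, fun i => mul_mem_Kr hb (ha.2 i)⟩

/-- The operators of `K0` are `0` on the span of the `S i`. -/
theorem K0_le_Kr (hS : ∀ i, L0 v F (S i)) (hw : w ∈ Submodule.span k (Set.range S)) (hρ : 0 ≤ ρ)
    (ha : a ∈ K0 h0 T S) : L0 v F w ∧ a ∈ Kr h0 T w ρ := by
  rw [mem_K0] at ha
  induction hw using Submodule.span_induction with
  | mem x hx =>
    obtain ⟨i, rfl⟩ := hx
    exact ⟨hS i, Kr_mono (hS i) le_rfl hρ (ha.2 i)⟩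
  | zero =>
    have hz : L0 v F (0 : Ω) := fun ε _ => ⟨0, zero_mem _, by rw [sub_zero]; exact RVal.Ge.zero⟩
    refine ⟨hz, mem_Kr_of ha.1 fun ε _ => ⟨0, ?_, ?_⟩⟩
    · rw [Submodule.coe_zero, sub_zero]
      exact RVal.Ge.zero
    · rw [map_zero, Submodule.coe_zero]
      exact RVal.Ge.zero
  | add x y _ _ hx hy =>
    refine ⟨fun ε hε => ?_, Kr_add hx.1 hρ hx.2 hy.2⟩
    obtain ⟨θ, hθ, h1⟩ := hx.1 ε hε
    obtain ⟨θ', hθ', h2⟩ := hy.1 ε hε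
    refine ⟨θ + θ', add_mem hθ hθ', ?_⟩
    rw [show x + y - (θ + θ') = (x - θ) + (y - θ') by ring]
    exact h1.add h2
  | smul c x _ hx =>
    refine ⟨fun ε hε => ?_, Kr_smul hx.1 hρ c hx.2⟩
    obtain ⟨θ, hθ, h1⟩ := hx.1 ε hε
    refine ⟨c • θ, F.smul_mem c hθ, ?_⟩
    rw [← smul_sub]
    exact ge_smul h0 c h1

/-- The operators of `U` which are small at finitely many `S i` are `0` at all of them. -/
theorem exists_sep (hS : ∀ i, L0 v F (S i)) (U : Submodule k E) [hU : FiniteDimensional k U] :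
    ∃ (I : Finset ι) (ρ : ℝ), 0 < ρ ∧ ∀ b ∈ U, b ∈ KI h0 T S I ρ → b ∈ K0 h0 T S := by
  classical
  have hfin : ∀ I ρ, FiniteDimensional k ↥(U ⊓ KI h0 T S I ρ) := fun I ρ =>
    Submodule.finiteDimensional_inf_left _ _
  have hex : ∃ n, ∃ (I : Finset ι) (ρ : ℝ), 0 < ρ ∧
      Module.finrank k ↥(U ⊓ KI h0 T S I ρ) = n := ⟨_, ∅, 1, one_pos, rfl⟩
  obtain ⟨I, ρ, hρ, hn⟩ := Nat.find_spec hex
  refine ⟨I, ρ, hρ, fun b hb hbI => mem_K0_of fun I' ρ' hρ' => ?_⟩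
  have hmin : 0 < min ρ ρ' := lt_min hρ hρ'
  have hle : U ⊓ KI h0 T S (I ∪ I') (min ρ ρ') ≤ U ⊓ KI h0 T S I ρ :=
    inf_le_inf le_rfl (KI_mono hS subset_union_left hmin.le (min_le_left _ _))
  have heq : U ⊓ KI h0 T S (I ∪ I') (min ρ ρ') = U ⊓ KI h0 T S I ρ := by
    have := hfin I ρ
    refine Submodule.eq_of_le_of_finrank_le hle ?_
    rw [hn]
    exact Nat.find_min' hex ⟨_, _, hmin, rfl⟩
  have h1 : b ∈ U ⊓ KI h0 T S (I ∪ I') (min ρ ρ') := by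
    rw [heq]
    exact ⟨hb, hbI⟩
  exact KI_mono hS subset_union_right hmin.le (min_le_right _ _) h1.2

/-- Coefficients of a polynomial with values in `W`. -/
theorem vand [Infinite k] {V : Type*} [AddCommGroup V] [Module k V] (W : Submodule k V) (y : ℕ → V)
    (n : ℕ) (h : ∀ e : k, ∑ m ∈ range n, e ^ m • y m ∈ W) : ∀ m, m < n → y m ∈ W := by
  intro m hm
  rw [← Submodule.ker_mkQ W, LinearMap.mem_ker]
  rw [← Module.forall_dual_apply_eq_zero_iff k]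
  intro φ
  set P : Polynomial k := ∑ m ∈ range n, Polynomial.C (φ (W.mkQ (y m))) * Polynomial.X ^ m with hP
  have h1 : P = 0 := by
    refine Polynomial.funext fun e => ?_
    rw [hP, Polynomial.eval_finsetSum, Polynomial.eval_zero]
    have h2 : φ (W.mkQ (∑ m ∈ range n, e ^ m • y m)) = 0 := by
      have : W.mkQ (∑ m ∈ range n, e ^ m • y m) = 0 := by
        rw [← LinearMap.mem_ker, Submodule.ker_mkQ]
        exact h e
      rw [this, map_zero]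
    rw [map_sum, map_sum] at h2
    rw [← h2]
    refine sum_congr rfl fun i _ => ?_
    rw [map_smul, map_smul, Polynomial.eval_mul, Polynomial.eval_C, Polynomial.eval_pow,
      Polynomial.eval_X, smul_eq_mul, mul_comm]
  have h3 := congrArg (fun Q => Polynomial.coeff Q m) h1
  simp only [hP, Polynomial.finsetSum_coeff, Polynomial.coeff_C_mul, Polynomial.coeff_X_pow,
    Polynomial.coeff_zero] at h3
  rw [sum_eq_single m (fun i _ hi => by rw [if_neg (Ne.symm hi), mul_zero])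
    (fun h => absurd (mem_range.2 hm) h), if_pos rfl, mul_one] at h3
  exact h3

end Pool.Agent.TXD
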